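import Pool.Agent.helper76.FF2.Spec

set_option autoImplicit false

namespace Pool.Agent.FF2

open Polynomial Pool.Agent.helper36.FF

/-- The case of linear forms with an arbitrary finite index type; as `linear_forms` in `Pool/Agent/helper36/FF/L.lean`. -/
theorem LIN_aux (F : Type*) [Field F] [Fintype F] [CharP F 2] (hmain : MSQ_stmt F) {ι : Type*} [Fintype ι]
    (A B : ι → F[X])
    (hA : ∀ i, A i ≠ 0) (hAB : ∀ i j, i ≠ j → A i * B j ≠ A j * B i) (σ : ι → ℤ)
    (hσ : ∀ i, σ i = 1 ∨ σ i = -1) :
    ∃ c : ℕ, ∀ n : ℕ, c ≤ n → ∃ S : Finset F[X], Fintype.card F ^ (n / 4 - c) ≤ S.card ∧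
      ∀ f ∈ S, f.Monic ∧ f.natDegree = n ∧ (∀ i, lam (A i * f + B i) = σ i) ∧
        ∀ π : F[X], Irreducible π → (∃ x : F[X], ∀ i, ¬ π ^ 2 ∣ A i * x + B i) →
          ∀ i, ¬ π ^ 2 ∣ A i * f + B i := by
  classical
  -- a monic common multiple
  have hprod : ∏ i, A i ≠ 0 := Finset.prod_ne_zero_iff.mpr (fun i _ => hA i)
  set M0 : F[X] := (∏ i, A i) * C (∏ i, A i).leadingCoeff⁻¹ with hM0
  have hM0m : M0.Monic := monic_mul_leadingCoeff_inv hprod
  have hQex : ∀ i, ∃ Q : F[X], M0 = A i * Q := by
    intro i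
    exact (Finset.dvd_prod_of_mem A (Finset.mem_univ i)).trans (dvd_mul_right _ _)
  choose Q hQ using hQex
  have hQ0 : ∀ i, Q i ≠ 0 := by
    intro i h
    have := hQ i
    rw [h, mul_zero] at this
    exact hM0m.ne_zero this
  -- primes dividing M0
  obtain ⟨L0, hL0⟩ := finite_factors M0 hM0m.ne_zero
  set L : Finset F[X] := L0.filter (fun π => ∃ x : F[X], ∀ i, ¬ π ^ 2 ∣ A i * x + B i) with hL
  have hLmem : ∀ π, π ∈ L ↔ (π.Monic ∧ Irreducible π ∧ π ∣ M0) ∧
      ∃ x : F[X], ∀ i, ¬ π ^ 2 ∣ A i * x + B i := by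
    intro π
    rw [hL, Finset.mem_filter, hL0]
  have hxex : ∀ π : F[X], ∃ x : F[X], π ∈ L → ∀ i, ¬ π ^ 2 ∣ A i * x + B i := by
    intro π
    by_cases h : π ∈ L
    · obtain ⟨x, hx⟩ := ((hLmem π).mp h).2
      exact ⟨x, fun _ => hx⟩
    · exact ⟨0, fun h' => absurd h' h⟩
  choose xx hxx using hxex
  obtain ⟨xa, hxa⟩ := crt_finset L (fun π => π ^ 2) xx (by
    intro π h π' h' hne
    have h1 := ((hLmem π).mp h).1
    have h2 := ((hLmem π').mp h').1
    exact (coprime_of_ne h1.1 h2.1 h1.2.1 h2.2.1 hne).pow)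
  set M : F[X] := M0 * ∏ π ∈ L, π ^ 2 with hM
  have hM0' : M ≠ 0 := by
    apply mul_ne_zero hM0m.ne_zero
    apply Finset.prod_ne_zero_iff.mpr
    intro π h
    exact pow_ne_zero _ ((hLmem π).mp h).1.1.ne_zero
  set g : ι → F[X] := fun i => Q i * B i with hg
  have hginj : Function.Injective g := by
    intro i k hik
    by_contra hne
    apply hAB i k hne
    simp only [hg] at hik
    -- Q i B i = Q k B k
    apply mul_left_cancel₀ hM0m.ne_zero
    calc M0 * (A i * B k) = A i * (A k * (Q k * B k)) := by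
          conv_lhs => rw [hQ k]
          ring
      _ = A i * (A k * (Q i * B i)) := by rw [hik]
      _ = M0 * (A k * B i) := by
          conv_rhs => rw [hQ i]
          ring
  set σ' : F[X] → ℤ := Function.extend g (fun i => lam (Q i) * σ i) (fun _ => 1) with hσ'
  have hσ'g : ∀ i, σ' (g i) = lam (Q i) * σ i := by
    intro i
    rw [hσ', hginj.extend_apply]
  obtain ⟨c, hc⟩ := hmain (Finset.univ.image g) σ' (by
    intro y hy
    rw [Finset.mem_image] at hy
    obtain ⟨i, _, rfl⟩ := hy
    rw [hσ'g]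
    rcases lam_eq (Q i) with h | h <;> rcases hσ i with h' | h' <;> simp [h, h'])
    M (M0 * xa) hM0'
  refine ⟨c + ∑ i, (g i).natDegree + 1, fun n hn => ?_⟩
  obtain ⟨S, hS1, hS2⟩ := hc (n + M0.natDegree) (by omega)
  have hdiv : ∀ f ∈ S, M0 * (f /ₘ M0) = f := by
    intro f hf
    obtain ⟨_, _, h3, _⟩ := hS2 f hf
    have h4 : M0 ∣ f := by
      have h5 : M0 ∣ f - M0 * xa := (dvd_mul_right _ _).trans h3
      have : f = (f - M0 * xa) + M0 * xa := by ring
      rw [this]
      exact dvd_add h5 (dvd_mul_right _ _)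
    obtain ⟨f1, rfl⟩ := h4
    rw [mul_divByMonic_cancel_left _ hM0m]
  refine ⟨S.image (fun f => f /ₘ M0), ?_, ?_⟩
  · rw [Finset.card_image_of_injOn]
    · refine le_trans (Nat.pow_le_pow_right Fintype.card_pos ?_) hS1
      have h1 : n / 4 ≤ (n + M0.natDegree) / 4 :=
        Nat.div_le_div_right (Nat.le_add_right _ _)
      omega
    · intro f1 h1 f2 h2 h12
      simp only at h12
      rw [← hdiv f1 h1, ← hdiv f2 h2, h12]
  · intro f hf
    rw [Finset.mem_image] at hf
    obtain ⟨fs, hfs, rfl⟩ := hf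
    obtain ⟨m1, d1, c1, l1, s1⟩ := hS2 fs hfs
    have e1 := hdiv fs hfs
    set f : F[X] := fs /ₘ M0 with hfdef
    have hfm : f.Monic := hM0m.of_mul_monic_left (by rw [e1]; exact m1)
    have hfd : f.natDegree = n := by
      have h1 := congrArg natDegree e1
      rw [hM0m.natDegree_mul hfm, d1] at h1
      omega
    have hform : ∀ i, fs + g i = Q i * (A i * f + B i) := by
      intro i
      rw [← e1]
      simp only [hg]
      conv_lhs => rw [hQ i]
      ring
    have hne : ∀ i, A i * f + B i ≠ 0 := by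
      intro i h0
      have h1 := hform i
      rw [h0, mul_zero] at h1
      have h2 : fs = -(g i) := eq_neg_of_add_eq_zero_left h1
      have h3 := congrArg natDegree h2
      rw [natDegree_neg, d1] at h3
      have h4 : (g i).natDegree ≤ ∑ i, (g i).natDegree :=
        Finset.single_le_sum (f := fun i => (g i).natDegree) (fun i _ => Nat.zero_le _)
          (Finset.mem_univ i)
      omega
    refine ⟨hfm, hfd, ?_, ?_⟩
    · intro i
      have h1 := l1 (g i) (Finset.mem_image_of_mem _ (Finset.mem_univ i))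
      rw [hσ'g, hform, lam_mul (hQ0 i) (hne i)] at h1
      have h2 : lam (Q i) ≠ 0 := by
        rcases lam_eq (Q i) with h | h <;> rw [h] <;> norm_num
      exact mul_left_cancel₀ h2 h1
    · intro π hi hadm i hdvd
      obtain ⟨π', m', i', hass, hdeg'⟩ := exists_monic_assoc hi
      by_cases hπ : π ∣ M0
      · have hmem : π' ∈ L := by
          rw [hLmem]
          refine ⟨⟨m', i', hass.dvd_iff_dvd_left.mp hπ⟩, ?_⟩
          obtain ⟨x, hx⟩ := hadm
          exact ⟨x, fun i h => hx i (sq_dvd_assoc hass.symm h)⟩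
        apply hxx π' hmem i
        have e0 : π' ^ 2 ∣ ∏ π ∈ L, π ^ 2 := Finset.dvd_prod_of_mem (fun π => π ^ 2) hmem
        have e2 : (∏ π ∈ L, π ^ 2) ∣ f - xa := by
          have h1 : M0 * ∏ π ∈ L, π ^ 2 ∣ M0 * (f - xa) := by
            have : M0 * (f - xa) = fs - M0 * xa := by rw [← e1]; ring
            rw [this]
            exact c1
          exact (mul_dvd_mul_iff_left hM0m.ne_zero).mp h1
        have e3 : π' ^ 2 ∣ f - xx π' := by
          have : f - xx π' = (f - xa) + (xa - xx π') := by ring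
          rw [this]
          exact dvd_add (e0.trans e2) (hxa π' hmem)
        have e4 : π' ^ 2 ∣ A i * f + B i := sq_dvd_assoc hass hdvd
        have : A i * xx π' + B i = (A i * f + B i) - A i * (f - xx π') := by ring
        rw [this]
        exact dvd_sub e4 (e3.mul_left _)
      · have hπQ : ∀ i, ¬ π ∣ Q i := by
          intro i h
          apply hπ
          rw [hQ i]
          exact h.mul_left _
        have hπM : ¬ π ∣ M := by
          intro hd
          rcases hi.prime.dvd_or_dvd hd with h | h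
          · exact hπ h
          · obtain ⟨π'', hπ'', h''⟩ := (hi.prime.dvd_finsetProd_iff _).mp h
            have h3 := (hLmem π'').mp hπ''
            exact hπ ((hi.prime.dvd_of_dvd_pow h'').trans h3.1.2.2)
        refine s1 π hi hπM ?_ (g i) (Finset.mem_image_of_mem _ (Finset.mem_univ i)) ?_
        · obtain ⟨x, hx⟩ := hadm
          refine ⟨M0 * x, ?_⟩
          intro y hy
          rw [Finset.mem_image] at hy
          obtain ⟨k, _, rfl⟩ := hy
          intro h
          apply hx k
          have h1 : M0 * x + g k = Q k * (A k * x + B k) := by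
            simp only [hg]
            conv_lhs => rw [hQ k]
            ring
          rw [h1] at h
          have h2 : IsCoprime (π ^ 2) (Q k) :=
            (hi.coprime_iff_not_dvd.mpr (hπQ k)).pow_left
          exact h2.dvd_of_dvd_mul_left h
        · rw [hform]
          exact hdvd.mul_left _

theorem LIN (F : Type*) [Field F] [Fintype F] [CharP F 2] (h1 : MSQ_stmt F) : LIN_stmt F := by
  intro k A B hA hAB σ hσ
  exact LIN_aux F h1 A B hA hAB σ hσ

end Pool.Agent.FF2
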