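import Pool.Agent.helper76.FF2.Spec

set_option autoImplicit false

namespace Pool.Agent.FF2

open Polynomial

theorem HDG_choose (t : ℕ) : 2 ∣ (4 * t + 1).choose 2 ∧ 2 ∣ (4 * t).choose 2 := by
  constructor
  · rw [Nat.choose_two_right]
    have h : (4 * t + 1) * (4 * t + 1 - 1) = 2 * (2 * ((4 * t + 1) * t)) := by
      rw [Nat.add_sub_cancel]
      ring
    rw [h, Nat.mul_div_cancel_left _ (by norm_num : 0 < 2)]
    exact Nat.dvd_mul_right _ _
  · rw [Nat.choose_two_right]
    have h : 4 * t * (4 * t - 1) = 2 * (2 * (t * (4 * t - 1))) := by ring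
    rw [h, Nat.mul_div_cancel_left _ (by norm_num : 0 < 2)]
    exact Nat.dvd_mul_right _ _

theorem HDG (F : Type*) [Field F] [CharP F 2] : HDG_stmt F := by
  intro A hA hN h5
  obtain ⟨t, ht⟩ : ∃ t, A.natDegree = 4 * t + 1 := ⟨A.natDegree / 4, by omega⟩
  have ht1 : 1 ≤ t := by omega
  have hlc : A.coeff (4 * t + 1) = 1 := by
    rw [← ht]
    exact hA
  have hdle : (derivative A).natDegree ≤ 4 * t := by
    have h := natDegree_derivative_le A
    rw [ht] at h
    omega
  have hdc : (derivative A).coeff (4 * t) = 1 := by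
    rw [coeff_derivative, hlc, one_mul]
    have h2 : ((4 * t : ℕ) : F) = 0 := (CharP.cast_eq_zero_iff F 2 _).2 ⟨2 * t, by ring⟩
    rw [h2, zero_add]
  have hdn : (derivative A).natDegree = 4 * t :=
    natDegree_eq_of_le_of_coeff_ne_zero hdle (by rw [hdc]; exact one_ne_zero)
  refine ⟨monic_of_natDegree_le_of_coeff_eq_one _ hdle hdc, ?_⟩
  have hh : (hasseDeriv 2 A).natDegree ≤ 4 * t - 3 := by
    rw [natDegree_le_iff_coeff_eq_zero]
    intro k hk
    rw [hasseDeriv_coeff]
    have hcase : k + 2 = 4 * t ∨ k + 2 = 4 * t + 1 ∨ 4 * t + 1 < k + 2 := by omega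
    rcases hcase with h | h | h
    · rw [h, (CharP.cast_eq_zero_iff F 2 _).2 (HDG_choose t).2, zero_mul]
    · rw [h, (CharP.cast_eq_zero_iff F 2 _).2 (HDG_choose t).1, zero_mul]
    · rw [coeff_eq_zero_of_natDegree_lt (by rw [ht]; exact h), mul_zero]
  rw [hdn]
  omega

end Pool.Agent.FF2
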